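import Mathlib
import Pool.Agent.H.MP_b1ea19_gt.Sine

/-! The local separating points of a nondegenerate subcontinuum of the closed sine curve are
dense in it. -/

set_option autoImplicit false

namespace Pool.Agent.H.MP_b1ea19_gt.helper41

open Topology Filter Set Real Pool.Agent.H.MP_b1ea19_gt

theorem loc_dense (C : Set X) (hC : IsConnected C) (hn : C.Nontrivial) : C ⊆ closure (Loc C) := by
  have hpre := hC.isPreconnected
  have hI : OrdConnected (fs '' C) :=
    (hpre.image fs continuous_fs.continuousOn).ordConnected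
  by_cases hpos : ∃ q ∈ C, 0 < fs q
  · -- case B
    obtain ⟨q0, hq0C, hq0⟩ := hpos
    let I0 : Set ℝ := {x | 0 < x ∧ (∃ u ∈ fs '' C, u < x) ∧ (∃ v ∈ fs '' C, x < v)}
    have hI0sub : ∀ x ∈ I0, x ∈ fs '' C := by
      rintro x ⟨_, ⟨u, hu, hux⟩, ⟨v, hv, hxv⟩⟩
      exact hI.out hu hv ⟨hux.le, hxv.le⟩
    have hI0le : ∀ x ∈ I0, x ∈ Ioc (0 : ℝ) 1 := by
      intro x hx
      obtain ⟨q, _, hq⟩ := hI0sub x hx
      exact ⟨hx.1, hq ▸ fst_le_one q.2⟩
    have hMC : g '' I0 ⊆ C := by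
      rintro _ ⟨x, hx, rfl⟩
      obtain ⟨q, hqC, hq⟩ := hI0sub x hx
      have : 0 < fs q := by rw [hq]; exact hx.1
      rw [← hq, g_fs this]
      exact hqC
    have hVC : ({q : X | 0 < fs q} ∩ C) = g '' (fs '' C ∩ Ioi 0) := by
      ext q
      constructor
      · rintro ⟨h1, h2⟩
        exact ⟨fs q, ⟨⟨q, h2, rfl⟩, h1⟩, g_fs h1⟩
      · rintro ⟨x, ⟨⟨q', hq', rfl⟩, hx⟩, rfl⟩
        rw [g_fs hx]
        exact ⟨hx, hq'⟩
    have hVCpre : IsPreconnected ({q : X | 0 < fs q} ∩ C) := by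
      rw [hVC]
      have hord : OrdConnected (fs '' C ∩ Ioi 0) := hI.inter ordConnected_Ioi
      refine hord.isPreconnected.image g (continuousOn_g.mono ?_)
      rintro _ ⟨⟨q, _, rfl⟩, hx⟩
      exact ⟨hx, fst_le_one q.2⟩
    have hML : g '' I0 ⊆ Loc C := by
      rintro _ ⟨x, hx, rfl⟩
      have hxI := hI0le x hx
      have hxC : g x ∈ C := hMC ⟨x, hx, rfl⟩
      have hpV : g x ∈ {q : X | 0 < fs q} := by
        show 0 < fs (g x)
        rw [fs_g hxI]; exact hx.1
      refine ⟨hxC, {q | 0 < fs q}, isOpen_lt continuous_const continuous_fs, hpV, ?_⟩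
      rw [hVCpre.connectedComponentIn ⟨hpV, hxC⟩]
      apply not_preconnected_of_lt continuous_fs
      · rintro q ⟨hq1, _⟩ hq2
        exact fs_inj hq1 hq2
      · obtain ⟨hx0, ⟨u, hu, hux⟩, _⟩ := hx
        have hxin : x ∈ fs '' C := by
          obtain ⟨q, hq, hqx⟩ : ∃ q ∈ C, fs q = x := ⟨g x, hxC, fs_g hxI⟩
          exact ⟨q, hq, hqx⟩
        have hu0 : 0 ≤ u := by
          obtain ⟨q, _, rfl⟩ := hu
          exact fst_nonneg q.2
        have hmid : (u + x) / 2 ∈ fs '' C := hI.out hu hxin ⟨by linarith, by linarith⟩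
        obtain ⟨q, hqC, hq⟩ := hmid
        refine ⟨q, ⟨?_, hqC⟩, ?_⟩
        · show 0 < fs q
          rw [hq]; linarith
        · rw [hq, fs_g hxI]; linarith
      · obtain ⟨hx0, _, ⟨v, ⟨q, hqC, rfl⟩, hxv⟩⟩ := hx
        refine ⟨q, ⟨hx0.trans hxv, hqC⟩, ?_⟩
        rw [fs_g hxI]; exact hxv
    have hdeg : ∃ q1 ∈ C, fs q1 ≠ fs q0 := by
      by_contra hdeg
      push Not at hdeg
      have hsub : C ⊆ {q0} := by
        intro q hq
        exact (fs_inj hq0 (hdeg q hq).symm).symm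
      obtain ⟨a, ha, b, hb, hab⟩ := hn
      exact hab ((hsub ha).trans (hsub hb).symm)
    obtain ⟨q1, hq1C, hq1⟩ := hdeg
    refine Subset.trans ?_ (closure_mono hML)
    intro q hqC
    obtain ⟨r, hrC, hr⟩ : ∃ r ∈ C, fs r ≠ fs q := by
      by_cases h : fs q = fs q0
      · exact ⟨q1, hq1C, by rw [h]; exact hq1⟩
      · exact ⟨q0, hq0C, fun h' => h h'.symm⟩
    rcases (fst_nonneg q.2).eq_or_lt with h | h
    · have hq : fs q = 0 := h.symm
      have hr0 : 0 < fs r := by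
        rcases (fst_nonneg r.2).eq_or_lt with h' | h'
        · exact absurd (h'.symm.trans h) hr
        · exact h'
      refine closure_mono (image_mono ?_) (bar_mem_closure hq hr0 (fst_le_one r.2))
      intro x hx
      exact ⟨hx.1, ⟨fs q, ⟨q, hqC, rfl⟩, by rw [hq]; exact hx.1⟩, ⟨fs r, ⟨r, hrC, rfl⟩, hx.2⟩⟩
    · have hq : 0 < fs q := h
      have hqI : fs q ∈ Ioc (0 : ℝ) 1 := ⟨hq, fst_le_one q.2⟩
      have hcl : fs q ∈ closure I0 := by
        rcases lt_or_gt_of_ne hr with hlt | hgt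
        · have h1 : Ioo (max (fs r) 0) (fs q) ⊆ I0 := by
            intro x hx
            exact ⟨(le_max_right _ _).trans_lt hx.1,
              ⟨fs r, ⟨r, hrC, rfl⟩, (le_max_left _ _).trans_lt hx.1⟩,
              ⟨fs q, ⟨q, hqC, rfl⟩, hx.2⟩⟩
          have h2 : fs q ∈ closure (Ioo (max (fs r) 0) (fs q)) := by
            rw [closure_Ioo (max_lt hlt hq).ne]
            exact ⟨(max_lt hlt hq).le, le_rfl⟩
          exact closure_mono h1 h2
        · have h1 : Ioo (fs q) (fs r) ⊆ I0 := by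
            intro x hx
            exact ⟨hq.trans hx.1, ⟨fs q, ⟨q, hqC, rfl⟩, hx.1⟩, ⟨fs r, ⟨r, hrC, rfl⟩, hx.2⟩⟩
          have h2 : fs q ∈ closure (Ioo (fs q) (fs r)) := by
            rw [closure_Ioo (ne_of_lt hgt)]
            exact ⟨le_rfl, le_of_lt hgt⟩
          exact closure_mono h1 h2
      have hcw : ContinuousWithinAt g I0 (fs q) := (continuousOn_g _ hqI).mono hI0le
      have := hcw.mem_closure_image hcl
      rwa [g_fs hq] at this
  · -- case A
    push Not at hpos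
    have hzero : ∀ q ∈ C, fs q = 0 := fun q hq => le_antisymm (hpos q hq) (fst_nonneg q.2)
    have hsn_inj : ∀ p ∈ C, ∀ q ∈ C, sn p = sn q → p = q := fun p hp q hq h =>
      ext_of ((hzero p hp).trans (hzero q hq).symm) h
    have hJ : OrdConnected (sn '' C) :=
      (hpre.image sn continuous_sn.continuousOn).ordConnected
    have hin : ∀ p ∈ C, (∃ a ∈ C, sn a < sn p) → (∃ c ∈ C, sn p < sn c) → p ∈ Loc C := by
      intro p hp ha hc
      refine ⟨hp, univ, isOpen_univ, mem_univ _, ?_⟩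
      rw [univ_inter, hpre.connectedComponentIn hp]
      exact not_preconnected_of_lt continuous_sn (fun q hq h => hsn_inj q hq p hp h) ha hc
    intro q hqC
    obtain ⟨r, hrC, hr⟩ : ∃ r ∈ C, r ≠ q := hn.exists_ne q
    have hsr : sn r ≠ sn q := fun h => hr (hsn_inj r hrC q hqC h)
    have hqm : sn q ∈ Icc (-1 : ℝ) 1 := snd_mem q.2
    have hrm : sn r ∈ Icc (-1 : ℝ) 1 := snd_mem r.2
    have key : ∀ u v : X, u ∈ C → v ∈ C → sn u < sn v → b '' Ioo (sn u) (sn v) ⊆ Loc C := by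
      rintro u v hu hv huv _ ⟨y, hy, rfl⟩
      obtain ⟨p, hpC, hp⟩ := hJ.out ⟨u, hu, rfl⟩ ⟨v, hv, rfl⟩ ⟨hy.1.le, hy.2.le⟩
      have : b y = p := by rw [← hp, b_sn (hzero p hpC)]
      rw [this]
      exact hin p hpC ⟨u, hu, by rw [hp]; exact hy.1⟩ ⟨v, hv, by rw [hp]; exact hy.2⟩
    rcases lt_or_gt_of_ne hsr with h | h
    · have hcl : sn q ∈ closure (Ioo (sn r) (sn q)) := by
        rw [closure_Ioo h.ne]; exact ⟨h.le, le_rfl⟩
      have hcw : ContinuousWithinAt b (Ioo (sn r) (sn q)) (sn q) :=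
        (continuousOn_b _ hqm).mono (fun y hy => ⟨hrm.1.trans hy.1.le, hy.2.le.trans hqm.2⟩)
      have h1 := hcw.mem_closure_image hcl
      rw [b_sn (hzero q hqC)] at h1
      exact closure_mono (key r q hrC hqC h) h1
    · have hcl : sn q ∈ closure (Ioo (sn q) (sn r)) := by
        rw [closure_Ioo (ne_of_lt h)]; exact ⟨le_rfl, le_of_lt h⟩
      have hcw : ContinuousWithinAt b (Ioo (sn q) (sn r)) (sn q) :=
        (continuousOn_b _ hqm).mono (fun y hy => ⟨hqm.1.trans hy.1.le, hy.2.le.trans hrm.2⟩)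
      have h1 := hcw.mem_closure_image hcl
      rw [b_sn (hzero q hqC)] at h1
      exact closure_mono (key q r hqC hrC h) h1

end Pool.Agent.H.MP_b1ea19_gt.helper41
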